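import Pool.Agent.R417.MV.Cut

/-!
The triples of `Pool.Agent.R417.MV.cut_frey` from a bound for the shortest vectors of the lattices of
index `N` in the `l¹` norm, with a general constant `κ` (in the place of the weighted bound of the
file `Pool.Agent.H390R2.Lattice`).
-/

open Finset Nat Filter Topology

namespace Pool.Agent.U168.SZ

open Pool.Agent.H390R2 (rad IsABCTriple II II_eq ev_II ev_pow ev_log ev_pi lattice
  loglog_two log_forty)
open Pool.Agent.W270.Szp
open Pool.Agent.W16.GT (many_vectors)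
open Pool.Agent.R417.MV

/-- For every large `m` there are exponentially many Frey triples. -/
theorem cut_frey' {ε g h κ : ℝ} (hε : 0 < ε) (hε1 : ε ≤ 1 / 4) (hg : 0 < g) (hh : 0 < h)
    (hgh : g + h = 2) (hκ : 0 < κ)
    (hlat : ∃ (n0 : ℕ) (B : ℝ), ∀ (ι : Type) [Fintype ι] (N : ℕ) (W : ι → ℤ),
      n0 ≤ Fintype.card ι → 0 < N → B * Fintype.card ι ≤ Real.log N →
      ∃ e : ι → ℤ, e ≠ 0 ∧ (N : ℤ) ∣ ∑ i, W i * e i ∧
        ∑ i, |(e i : ℝ)| ≤ κ * Fintype.card ι * Real.exp (Real.log N / Fintype.card ι)) :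
    ∀ᶠ m : ℕ in atTop, ∃ (T : Finset (ℕ × ℕ × ℕ)) (q : ℕ), q.Prime ∧ m < q ∧
      Real.exp (h * Nat.primeCounting m) ≤ 2 * T.card ∧
      ∀ t ∈ T, IsABCTriple t.1 t.2.1 t.2.2 ∧ 16 ∣ t.1 * t.2.1 * t.2.2 ∧ q ∣ t.1 ∧
        t.2.1.primeFactors ⊆ primesLE m ∧ t.2.2.primeFactors ⊆ primesLE m ∧
        Real.log t.2.2 ≤ (1 + 2 * ε) * (κ * Real.exp 2 / 2 * Real.exp ε *
          (Nat.primeCounting m * m * Real.log m *
            Real.exp (-(II m / Nat.primeCounting m)))) ∧
        g * Nat.primeCounting m - Real.log m - 2 ≤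
          (Real.log t.1 + Real.log t.2.1 + Real.log t.2.2) / 3 -
            Real.log (rad (t.1 * t.2.1 * t.2.2)) := by
  obtain ⟨n0, B0, hlat⟩ := hlat
  obtain ⟨D, hD0, hD⟩ := ev_II
  set C0 : ℝ := κ * Real.exp 2 / 2 with hC0
  have hC00 : 0 < C0 := by positivity
  set c1 : ℝ := C0 * Real.exp (-D) / 2 with hc1
  have hc10 : 0 < c1 := by positivity
  obtain ⟨b9, hb9⟩ := exists_nat_ge (1 / (2 * ε * c1))
  obtain ⟨b8, hb8⟩ := exists_nat_ge (κ * Real.exp 3)
  filter_upwards [eventually_ge_atTop 45, eventually_ge_atTop b9, ev_log (max 1 (12 / ε)),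
      ev_pi, hD, ev_log (B0 + D), ev_pow 1 (a := 1) one_pos (2 * n0),
      ev_pow 2 hε 80, ev_pow 2 hg 24, ev_pow 2 hh 24, eventually_ge_atTop b8]
    with m h1 h2 h3' h5 h6 h7 h8 h10' h10 h11 h12'
  clear hD
  have h3 : 1 ≤ Real.log m := (le_max_left _ _).trans h3'
  have h3a : 12 / ε ≤ Real.log m := (le_max_right _ _).trans h3'
  have hm45 : (45 : ℝ) ≤ m := by exact_mod_cast h1
  have hm0 : (0 : ℝ) < m := by linarith
  set L : ℝ := Real.log m with hL
  have hL0 : 0 < L := by linarith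
  have hLm : L ≤ m := (Real.log_le_sub_one_of_pos hm0).trans (by linarith)
  set n : ℝ := (Nat.primeCounting m : ℝ) with hn
  have hn0 : 0 < n := lt_of_lt_of_le (by positivity) h5
  have hnm : n ≤ m := by
    rw [hn, ← Nat.primesLE_card_eq_primeCounting]
    have : (primesLE m).card ≤ m := by
      have h := Finset.card_le_card (s := primesLE m) (t := Finset.Icc 1 m) (fun p hp => by
        rw [Finset.mem_Icc]
        exact ⟨(prime_of_mem_primesLE hp).one_le, le_of_mem_primesLE hp⟩)
      simpa using h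
    exact_mod_cast this
  rw [pow_one] at h8
  have hnL : (m : ℝ) / 2 ≤ n * L := by
    rw [div_le_iff₀ (by positivity)] at h5
    linarith
  have hnB : (n0 : ℝ) ≤ n := by
    refine le_trans ?_ h5
    rw [le_div_iff₀ (by positivity)]
    linarith
  have hεL : 40 * L ≤ ε * n := by
    have : 40 * L ≤ ε * (m / (2 * L)) := by
      rw [mul_div_assoc', le_div_iff₀ (by positivity)]
      calc 40 * L * (2 * L) = 80 * L ^ 2 := by ring
        _ ≤ ε * m := h10'
    exact this.trans (by gcongr)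
  have hgn : 12 * L ≤ g * n := by
    have : 12 * L ≤ g * (m / (2 * L)) := by
      rw [mul_div_assoc', le_div_iff₀ (by positivity)]
      calc 12 * L * (2 * L) = 24 * L ^ 2 := by ring
        _ ≤ g * m := h10
    exact this.trans (by gcongr)
  have hhn : 12 * L ≤ h * n := by
    have : 12 * L ≤ h * (m / (2 * L)) := by
      rw [mul_div_assoc', le_div_iff₀ (by positivity)]
      calc 12 * L * (2 * L) = 24 * L ^ 2 := by ring
        _ ≤ h * m := h11
    exact this.trans (by gcongr)
  have hghn : g * n + h * n = 2 * n := by rw [← hgh]; ring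
  set J : ℝ := II m / n with hJ
  have hnJ : n * J = II m := by rw [hJ]; field_simp
  have hJD : J ≤ D := by
    rw [hJ, div_le_iff₀ hn0]; exact h6
  have hJ0 : 0 ≤ J := div_nonneg II_nonneg hn0.le
  set θ : ℝ := ∑ p ∈ primesLE m, Real.log p with hθ
  have hθJ : θ = n * L - n * J := by
    rw [hnJ, II_eq (by omega)]; ring
  have hθ0 : 0 ≤ θ := Finset.sum_nonneg fun p hp =>
    Real.log_natCast_nonneg p
  have hl2 : (0 : ℝ) < Real.log 2 := Real.log_pos one_lt_two
  have hl2' : Real.log 2 ≤ 1 := by linarith [Real.log_two_lt_d9]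
  have hgn0 : 0 ≤ g * n := by positivity
  -- the auxiliary primes
  obtain ⟨q, hq, hmq, hq2⟩ := Nat.exists_prime_lt_and_le_two_mul m (by omega)
  obtain ⟨M, hMp, hmM, hM2⟩ := Nat.exists_prime_lt_and_le_two_mul (m ^ 10)
    (Nat.pow_pos (by omega)).ne'
  have hq0 : (0 : ℝ) < q := by exact_mod_cast hq.pos
  have hM0 : (0 : ℝ) < M := by exact_mod_cast hMp.pos
  have hlogq1 : L < Real.log q := Real.log_lt_log hm0 (by exact_mod_cast hmq)
  have hlogq2 : Real.log q ≤ L + 1 := by
    have : Real.log q ≤ Real.log (2 * m) := Real.log_le_log hq0 (by exact_mod_cast hq2)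
    rw [Real.log_mul (by norm_num) hm0.ne'] at this
    linarith
  have hlogM2 : Real.log M ≤ 10 * L + 1 := by
    have : Real.log M ≤ Real.log (2 * m ^ 10) := Real.log_le_log hM0 (by exact_mod_cast hM2)
    rw [Real.log_mul (by norm_num) (by positivity), Real.log_pow] at this
    push_cast at this
    linarith
  obtain ⟨k', hk1, hk2⟩ := exists_nat_pow_near (x := Real.exp (θ + g * n)) (y := (q : ℝ))
    (Real.one_le_exp (by positivity)) (by exact_mod_cast hq.one_lt)
  set k := k' + 1 with hk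
  have hqk0 : (0 : ℝ) < (q : ℝ) ^ k := by positivity
  have hklog1 : θ + g * n ≤ k * Real.log q := by
    rw [← Real.log_pow, Real.le_log_iff_exp_le hqk0]; exact hk2.le
  have hklog2 : k * Real.log q ≤ θ + g * n + L + 1 := by
    have h := Real.log_le_log (by positivity) hk1
    rw [Real.log_exp, Real.log_pow] at h
    rw [hk]
    push_cast
    linarith
  set N : ℕ := φ (q ^ k) * M with hN
  have hφ : φ (q ^ k) = q ^ k' * (q - 1) := by
    rw [hk, Nat.totient_prime_pow_succ hq]
  have hcop : Nat.Coprime (φ (q ^ k)) M := by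
    rw [hφ, Nat.coprime_comm]
    have hqM : q < M := by
      have : 2 * m ≤ m ^ 10 := by
        calc 2 * m ≤ m * m := Nat.mul_le_mul_right _ (by omega)
          _ = m ^ 2 := by ring
          _ ≤ m ^ 10 := Nat.pow_le_pow_right (by omega) (by norm_num)
      omega
    refine Nat.Coprime.mul_right ?_ ?_
    · refine Nat.Coprime.pow_right _ ?_
      rw [Nat.coprime_primes hMp hq]
      omega
    · rw [Nat.Prime.coprime_iff_not_dvd hMp]
      intro h
      have := Nat.le_of_dvd (by have := hq.two_le; omega) h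
      omega
  have hNle : q ^ k ≤ N := by
    rw [hN, hφ, hk, pow_succ, mul_assoc]
    refine Nat.mul_le_mul_left _ ?_
    have h1 := hq.two_le
    have h2 := hMp.two_le
    calc q ≤ (q - 1) * 2 := by omega
      _ ≤ (q - 1) * M := Nat.mul_le_mul_left _ h2
  have hNle' : N ≤ q ^ k * M := Nat.mul_le_mul_right _ (Nat.totient_le _)
  have hN0 : 0 < N := lt_of_lt_of_le (Nat.pow_pos hq.pos) hNle
  have hN0' : (0 : ℝ) < N := by exact_mod_cast hN0
  have hlogN1 : θ + g * n ≤ Real.log N := by
    refine hklog1.trans ?_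
    rw [← Real.log_pow]
    exact Real.log_le_log hqk0 (by exact_mod_cast hNle)
  have hlogN2 : Real.log N ≤ θ + g * n + 11 * L + 2 := by
    have h := Real.log_le_log hN0' (show (N : ℝ) ≤ (q : ℝ) ^ k * M by exact_mod_cast hNle')
    rw [Real.log_mul hqk0.ne' hM0.ne', Real.log_pow] at h
    linarith
  -- the counting prime
  set P0 : ℕ := ⌈Real.exp (h * n)⌉₊ with hP0
  have hP0le : Real.exp (h * n) ≤ P0 := Nat.le_ceil _
  have hP0lt : (P0 : ℝ) < Real.exp (h * n) + 1 := Nat.ceil_lt_add_one (Real.exp_pos _).le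
  have hP00 : P0 ≠ 0 := by
    have : (0 : ℝ) < P0 := lt_of_lt_of_le (Real.exp_pos _) hP0le
    intro h; rw [h] at this; simp at this
  obtain ⟨P, hPp, hP1, hP2⟩ := Nat.exists_prime_lt_and_le_two_mul P0 hP00
  have hP1' : (P0 : ℝ) ≤ P := by exact_mod_cast hP1.le
  have hP2' : (P : ℝ) ≤ 2 * P0 := by exact_mod_cast hP2
  have hPpos : (0 : ℝ) < P := by exact_mod_cast hPp.pos
  have hlogP1 : h * n ≤ Real.log P := by
    rw [Real.le_log_iff_exp_le hPpos]; exact hP0le.trans hP1'
  have hlogP2 : Real.log P ≤ h * n + 2 := by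
    rw [Real.log_le_iff_le_exp hPpos, Real.exp_add]
    have h12 : 1 ≤ Real.exp (h * n) := Real.one_le_exp (by positivity)
    have h13 : (4 : ℝ) ≤ Real.exp 2 := by
      have h14 : (2 : ℝ) ≤ Real.exp 1 := by linarith [Real.add_one_le_exp (1 : ℝ)]
      have h15 : Real.exp 2 = Real.exp 1 ^ 2 := by rw [← Real.exp_nat_mul]; norm_num
      rw [h15]
      calc (4 : ℝ) = 2 ^ 2 := by norm_num
        _ ≤ _ := pow_le_pow_left₀ (by norm_num) h14 2
    calc (P : ℝ) ≤ Real.exp (h * n) * 4 := by linarith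
      _ ≤ _ := by gcongr
  have hNP0 : 0 < N * P := Nat.mul_pos hN0 hPp.pos
  have hlogNPe : Real.log (N * P : ℕ) = Real.log N + Real.log P := by
    rw [Nat.cast_mul, Real.log_mul hN0'.ne' hPpos.ne']
  have hlogNP1 : θ + 2 * n ≤ Real.log (N * P : ℕ) := by rw [hlogNPe]; linarith
  have hlogNP2 : Real.log (N * P : ℕ) ≤ θ + 2 * n + 15 * L := by rw [hlogNPe]; linarith
  -- the double logarithms
  have hlogp : ∀ p : {p // p ∈ primesLE m}, Real.log 2 ≤ Real.log (gg p) := fun p =>
    Real.log_le_log two_pos (by exact_mod_cast (two_le_of_mem_primesLE p.2).trans (gg_ge p))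
  have hlog189 : Real.log 189 ≤ 6 := by
    rw [Real.log_le_iff_le_exp (by norm_num)]
    have h := Real.exp_one_gt_d9
    calc (189 : ℝ) ≤ 2.7 ^ 6 := by norm_num
      _ ≤ Real.exp 1 ^ 6 := by gcongr; linarith
      _ = Real.exp 6 := by rw [← Real.exp_nat_mul]; norm_num
  have hlogp' : ∀ p : {p // p ∈ primesLE m}, Real.log (gg p) ≤ L + 6 := by
    intro p
    have hp0 := (prime_of_mem_primesLE p.2).pos
    have h1 : (gg p : ℝ) ≤ 189 * m := by
      have := (gg_le p).trans (Nat.mul_le_mul_left 189 (le_of_mem_primesLE p.2))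
      exact_mod_cast this
    have h2 := Real.log_le_log (by exact_mod_cast gg_pos hp0) h1
    rw [Real.log_mul (by norm_num) hm0.ne'] at h2
    linarith
  have hlogp0 : ∀ p : {p // p ∈ primesLE m}, 0 < Real.log (gg p) := fun p =>
    hl2.trans_le (hlogp p)
  have hcard : (Fintype.card {p // p ∈ primesLE m} : ℝ) = n := by
    rw [hn, ← Nat.primesLE_card_eq_primeCounting, Fintype.card_coe]
  have hL6 : L + 6 ≤ L * Real.exp (ε / 2) := by
    have h1 : L + 6 ≤ L * (1 + ε / 2) := by
      rw [div_le_iff₀ hε] at h3a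
      linarith
    refine h1.trans ?_
    have h2 := Real.add_one_le_exp (ε / 2)
    exact mul_le_mul_of_nonneg_left (by linarith) hL0.le
  -- the length
  set A : ℝ := C0 * Real.exp ε * (n * m * L * Real.exp (-J)) with hA
  have hA0 : 0 < A := by positivity
  set lam : ℝ := 2 * A with hlam
  have hlam0 : 0 < lam := by positivity
  have hexpN : Real.exp (Real.log (N * P : ℕ) / n) ≤
      m * Real.exp (-J) * Real.exp 2 * Real.exp (ε / 2) := by
    have h12 : Real.log (N * P : ℕ) / n ≤ L + -J + 2 + ε / 2 := by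
      rw [div_le_iff₀ hn0]
      calc Real.log (N * P : ℕ) ≤ θ + 2 * n + 15 * L := hlogNP2
        _ ≤ θ + 2 * n + ε / 2 * n := by linarith
        _ = (L + -J + 2 + ε / 2) * n := by rw [hθJ]; ring
    have h13 := Real.exp_le_exp.mpr h12
    rw [Real.exp_add, Real.exp_add, Real.exp_add, hL, Real.exp_log hm0] at h13
    exact h13
  have hlamA : lam ≤ 2 * (1 + ε) * A := by
    rw [hlam]
    have : 0 ≤ ε * A := by positivity
    linarith
  -- crude bound for `lam`
  have hlamm : lam ≤ (m : ℝ) ^ 4 := by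
    have h20 : Real.exp 2 * Real.exp ε ≤ Real.exp 3 := by
      rw [← Real.exp_add]; exact Real.exp_le_exp.mpr (by linarith only [hε1])
    have h21 : Real.exp (-J) ≤ 1 := Real.exp_le_one_iff.mpr (by linarith only [hJ0])
    have h22 : κ * Real.exp 3 ≤ m := hb8.trans (by exact_mod_cast h12')
    calc lam = κ * (Real.exp 2 * Real.exp ε) * (n * m * L * Real.exp (-J)) := by
          rw [hlam, hA, hC0]; ring
      _ ≤ κ * Real.exp 3 * (m * m * m * 1) := by gcongr
      _ ≤ m * (m * m * m * 1) := by gcongr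
      _ = (m : ℝ) ^ 4 := by ring
  have hlam1 : lam + 1 ≤ (m : ℝ) ^ 5 := by
    have : (1 : ℝ) ≤ (m : ℝ) ^ 4 := one_le_pow₀ (by linarith only [hm45])
    calc lam + 1 ≤ (m : ℝ) ^ 4 + (m : ℝ) ^ 4 := by linarith only [hlamm, this]
      _ = 2 * (m : ℝ) ^ 4 := by ring
      _ ≤ m * (m : ℝ) ^ 4 := by gcongr; linarith only [hm45]
      _ = (m : ℝ) ^ 5 := by ring
  have hprod : lam * (lam + 1) ≤ (m : ℝ) ^ 9 := by
    calc lam * (lam + 1) ≤ (m : ℝ) ^ 4 * (m : ℝ) ^ 5 := by gcongr
      _ = (m : ℝ) ^ 9 := by ring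
  have hMbig : lam * (lam + 1) ≤ M * Real.log 2 := by
    have h23 : (m : ℝ) ^ 10 ≤ M := by exact_mod_cast hmM.le
    have h24 : (1 / 2 : ℝ) ≤ Real.log 2 := by linarith [Real.log_two_gt_d9]
    calc lam * (lam + 1) ≤ (m : ℝ) ^ 9 := hprod
      _ ≤ (m : ℝ) ^ 9 * (m * (1 / 2)) := by
          refine le_mul_of_one_le_right (by positivity) (by linarith)
      _ = (m : ℝ) ^ 10 * (1 / 2) := by ring
      _ ≤ M * Real.log 2 := by gcongr
  have hl2'' : (0.6931 : ℝ) ≤ Real.log 2 := by linarith only [Real.log_two_gt_d9]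
  have hexp1 : (2.7 : ℝ) ≤ Real.exp 1 := by linarith only [Real.exp_one_gt_d9]
  set Q : ({p // p ∈ primesLE m} → ℤ) → Prop := fun e =>
    ∑ i : {p // p ∈ primesLE m}, |(e i : ℝ)| * Real.log (gg i) ≤ lam with hQdef
  have hQP : ∀ e, Q e → ∀ i, |e i| < P := by
    intro e he i
    have h41 : |(e i : ℝ)| * Real.log (gg i) ≤ lam := by
      refine le_trans ?_ he
      exact Finset.single_le_sum (f := fun i : {p // p ∈ primesLE m} =>
        |(e i : ℝ)| * Real.log (gg i))
        (fun j _ => mul_nonneg (abs_nonneg _) (hlogp0 j).le) (Finset.mem_univ i)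
    have h42 : |(e i : ℝ)| * 0.6931 ≤ lam := by
      refine le_trans ?_ h41
      exact mul_le_mul_of_nonneg_left (hl2''.trans (hlogp i)) (abs_nonneg (e i : ℝ))
    have h44 : (m : ℝ) ^ 4 = Real.exp (4 * L) := by
      rw [show (4 : ℝ) * L = (4 : ℕ) * L by norm_num, Real.exp_nat_mul, hL, Real.exp_log hm0]
    have h45 : Real.exp (4 * L + 1) ≤ P := by
      refine le_trans (Real.exp_le_exp.mpr ?_) (hP0le.trans hP1')
      linarith only [hhn, h3, hL0]
    rw [Real.exp_add] at h45
    have h46 : 0 < Real.exp (4 * L) := Real.exp_pos _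
    have h48 : Real.exp (4 * L) * 2.7 ≤ Real.exp (4 * L) * Real.exp 1 :=
      mul_le_mul_of_nonneg_left hexp1 h46.le
    rw [h44] at hlamm
    have h47 : |(e i : ℝ)| < P := by linarith only [h42, hlamm, h45, h46, h48]
    exact_mod_cast h47
  have hm7 : 7 ≤ m := by omega
  obtain ⟨W, hW⟩ := exists_W (k := k) (M := M) ((M : ℝ) / (lam + 1)) hm7 hq hmq hcop
  obtain ⟨V, hVcard, hV⟩ := many_vectors (N := N) (M := P) hN0 hPp W Q hQP
    (by
      intro W
      obtain ⟨e, he, hdvd, hle⟩ := hlat {p // p ∈ primesLE m} (N * P) W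
        (by
          have : (n0 : ℝ) ≤ (Fintype.card {p // p ∈ primesLE m} : ℝ) := by
            rw [hcard]; exact hnB
          exact_mod_cast this) hNP0 (by
          rw [hcard]
          refine le_trans ?_ hlogNP1
          have h12 : B0 + J ≤ L := by linarith
          have h13 := mul_le_mul_of_nonneg_right h12 hn0.le
          rw [hθJ]
          linarith)
      refine ⟨e, he, hdvd, ?_⟩
      rw [hcard] at hle
      calc ∑ i : {p // p ∈ primesLE m}, |(e i : ℝ)| * Real.log (gg i)
          ≤ ∑ i : {p // p ∈ primesLE m}, |(e i : ℝ)| * (L * Real.exp (ε / 2)) :=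
            Finset.sum_le_sum fun i _ => mul_le_mul_of_nonneg_left ((hlogp' i).trans hL6)
              (abs_nonneg _)
        _ = (∑ i : {p // p ∈ primesLE m}, |(e i : ℝ)|) * (L * Real.exp (ε / 2)) := by
            rw [Finset.sum_mul]
        _ ≤ (κ * n * Real.exp (Real.log (N * P : ℕ) / n)) * (L * Real.exp (ε / 2)) := by gcongr
        _ ≤ (κ * n * (m * Real.exp (-J) * Real.exp 2 * Real.exp (ε / 2))) *
            (L * Real.exp (ε / 2)) := by gcongr
        _ = lam := by
            have h14 : Real.exp ε = Real.exp (ε / 2) * Real.exp (ε / 2) := by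
              rw [← Real.exp_add]; ring_nf
            rw [hlam, hA, hC0, h14]; ring)
  have hex : ∀ t : {t // t ∈ V}, ∃ z : ℕ × ℕ × ℕ, IsABCTriple z.1 z.2.1 z.2.2 ∧
      16 ∣ z.1 * z.2.1 * z.2.2 ∧ q ^ k ∣ z.1 ∧
      Real.log z.2.2 ≤ (lam + 1) / 2 ∧ Real.log z.2.2 - 1 ≤ Real.log z.2.1 ∧
      z.2.1.primeFactors ⊆ primesLE m ∧ z.2.2.primeFactors ⊆ primesLE m ∧
      (z.2.2 * An t.1 = z.2.1 * Ap t.1 ∨ z.2.2 * Ap t.1 = z.2.1 * An t.1) := by
    rintro ⟨t, ht⟩
    obtain ⟨ht0, htd, htl⟩ := hV t ht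
    obtain ⟨hd1, hd2⟩ := hW t htd
    obtain ⟨a, b, c, h⟩ := triple_of (q := q) (k := k) (M := M) (lam := lam) hm7 hq hmq hlam0
      hMbig t ht0 hd1 hd2 htl
    exact ⟨(a, b, c), h⟩
  choose F hF using hex
  refine ⟨Finset.univ.image F, q, hq, hmq, ?_, ?_⟩
  · have h51 : V.card ≤ 2 * (Finset.univ.image F).card := by
      rw [← Fintype.card_coe V, ← Finset.card_univ]
      refine Finset.card_le_mul_card_image (s := (Finset.univ : Finset {t // t ∈ V})) (f := F) 2 ?_
      intro z hz
      obtain ⟨e0, _, he0⟩ := Finset.mem_image.mp hz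
      have h52 : ((Finset.univ.filter fun e => F e = z).map (Function.Embedding.subtype _)) ⊆
          {e0.1, -e0.1} := by
        intro e he
        rw [Finset.mem_map] at he
        obtain ⟨e', he', rfl⟩ := he
        rw [Finset.mem_filter] at he'
        obtain ⟨hb1, hb2, hb3, hb4, hb5, hb6, hb7, hb8⟩ := hF e'
        obtain ⟨hc1, hc2, hc3, hc4, hc5, hc6, hc7, hc8⟩ := hF e0
        rw [he'.2] at hb1 hb8
        rw [he0] at hc8
        have h53 := fibre hb1.2.1 hb1.2.2.1 hc8 hb8
        simp only [Finset.mem_insert, Finset.mem_singleton]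
        exact h53
      have h54 := (Finset.card_le_card h52).trans Finset.card_le_two
      rwa [Finset.card_map] at h54
    have h54 : (V.card : ℝ) ≤ 2 * (Finset.univ.image F).card := by exact_mod_cast h51
    have h55 : (P : ℝ) ≤ V.card := by exact_mod_cast hVcard
    linarith only [h54, h55, hP0le, hP1']
  · intro z hz
    obtain ⟨e, he, rfl⟩ := Finset.mem_image.mp hz
    obtain ⟨habc, h16, hqa, hcle, hbc, hbp, hcp, -⟩ := hF e
    generalize (F e).1 = a at habc h16 hqa ⊢
    generalize (F e).2.1 = b at habc h16 hbc hbp ⊢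
    generalize (F e).2.2 = c at habc h16 hcle hbc hcp ⊢
    obtain ⟨ha0, hb0, hc0, hsum, -, -, -⟩ := id habc
    have ha0' : (0 : ℝ) < a := by exact_mod_cast ha0
    have hb0' : (0 : ℝ) < b := by exact_mod_cast hb0
    have hc0' : (0 : ℝ) < c := by exact_mod_cast hc0
    refine ⟨habc, h16, (dvd_pow_self q (by omega)).trans hqa, hbp, hcp, ?_, ?_⟩
    · -- the upper bound for `log c`
      have hAlow : c1 * (m : ℝ) ^ 2 ≤ A := by
        have h23 : Real.exp (-D) ≤ Real.exp (-J) := Real.exp_le_exp.mpr (by linarith only [hJD])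
        have h24 : 1 ≤ Real.exp ε := Real.one_le_exp (by positivity)
        calc c1 * (m : ℝ) ^ 2 = C0 * 1 * ((m / 2) * m * Real.exp (-D)) := by rw [hc1]; ring
          _ ≤ C0 * Real.exp ε * ((n * L) * m * Real.exp (-J)) := by gcongr
          _ = A := by rw [hA]; ring
      have h25 : 1 / 2 ≤ ε * A := by
        have h26 : 1 / (2 * ε * c1) ≤ m := hb9.trans (by exact_mod_cast h2)
        rw [div_le_iff₀ (by positivity)] at h26
        have h27 : (m : ℝ) ≤ (m : ℝ) ^ 2 := le_self_pow₀ (by linarith only [hm45]) two_ne_zero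
        calc (1 / 2 : ℝ) ≤ (m * (2 * ε * c1)) / 2 := by linarith only [h26]
          _ = ε * (c1 * m) := by ring
          _ ≤ ε * (c1 * (m : ℝ) ^ 2) := by gcongr
          _ ≤ ε * A := by gcongr
      linarith only [h25, hcle, hlamA]
    · have hlogac : Real.log a ≤ Real.log c := Real.log_le_log ha0' (by
        exact_mod_cast (by omega : a ≤ c))
      have hradpos : (0 : ℝ) < rad (a * b * c) := by
        have : 0 < rad (a * b * c) := by
          unfold rad
          exact Finset.prod_pos fun p hp => (Nat.prime_of_mem_primeFactors hp).pos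
        exact_mod_cast this
      have hP : (0 : ℝ) < ∏ p ∈ primesLE m, (p : ℝ) :=
        Finset.prod_pos fun p hp => by exact_mod_cast (prime_of_mem_primesLE hp).pos
      have hradlog : Real.log (rad (a * b * c)) + k * Real.log q ≤
          Real.log q + Real.log a + θ := by
        have h := rad_bound' (m := m) hq ha0 hb0 hc0 hqa hbp hcp
        have h' : (rad (a * b * c) : ℝ) * (q : ℝ) ^ k ≤ q * a * ∏ p ∈ primesLE m, (p : ℝ) := by
          have h0 : ((rad (a * b * c) * q ^ k : ℕ) : ℝ) ≤ ((q * a * ∏ p ∈ primesLE m, p : ℕ) : ℝ) :=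
            Nat.cast_le.mpr h
          rwa [Nat.cast_mul, Nat.cast_pow, Nat.cast_mul, Nat.cast_mul, Nat.cast_prod] at h0
        have h'' := Real.log_le_log (by positivity) h'
        rw [Real.log_mul hradpos.ne' hqk0.ne', Real.log_pow, Real.log_mul (by positivity) hP.ne',
          Real.log_mul hq0.ne' ha0'.ne', Real.log_prod (fun p hp => by
            have : (0 : ℝ) < p := by exact_mod_cast (prime_of_mem_primesLE hp).pos
            exact this.ne')] at h''
        exact h''
      linarith only [hradlog, hklog1, hlogq2, hlogac, hbc]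

end Pool.Agent.U168.SZ
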