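import Pool.Agent.R417.MV.Many
import Pool.Agent.U168.SZ.Cut
import Pool.Agent.TH871.L1.Const

/-!
Many semistable curves with full rational 2-torsion and a large discriminant, with the constant
`6.84` of the file `Pool.Agent.TH871.L1.Const` (the constant for good abc triples). The argument is that
of `Pool.Agent.R417.MV.Many`, with the lattice bound of `Pool.Agent.TH871.L1`.
-/

open Finset Nat Filter Topology

namespace Pool.Agent.U168.SZ

open Pool.Agent.H390R2 (rad IsABCTriple II)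
open Pool.Agent.W270.Szp
open Pool.Agent.W16.GT (mm mm_atTop log_mm height_bound count_limit rho_atTop)
open Pool.Agent.R417.MV (curve_of j_eq recover)

lemma choose_a' {T κ : ℝ} (hT0 : 0 < T) (hκ : 0 < κ) (hT : T ^ 2 * κ * Real.exp 1 < 32) :
    ∃ a ε : ℝ, 0 < a ∧ T / 4 < a ∧ 0 < ε ∧ ε ≤ 1 / 4 ∧
      (1 + 2 * ε) * (κ * Real.exp 2 / 2 * Real.exp ε *
        ((1 + ε) * Real.exp (-(1 - 2 * ε)))) * a ^ 2 ≤ 1 := by
  set C : ℝ := κ * Real.exp 1 / 2 with hC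
  have hC0 : 0 < C := by positivity
  have h1 : T ^ 2 * C < 16 := by
    rw [hC]; linarith
  have hc0 : Continuous (fun a : ℝ => a ^ 2 * C) := by fun_prop
  have h3 : ∀ᶠ a : ℝ in 𝓝 (T / 4), a ^ 2 * C < 1 := by
    have := (hc0.tendsto (T / 4)).eventually_lt (tendsto_const_nhds (x := (1 : ℝ)))
      (by nlinarith)
    exact this
  obtain ⟨δ, hδ0, hδ⟩ := Metric.eventually_nhds_iff.mp h3
  set a : ℝ := T / 4 + δ / 2 with ha
  have ha0 : 0 < a := by positivity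
  have haC : a ^ 2 * C < 1 := by
    apply hδ
    rw [Real.dist_eq, ha, add_sub_cancel_left, abs_of_pos (by positivity)]
    linarith
  have hc1 : Continuous (fun ε : ℝ => (1 + 2 * ε) * (κ * Real.exp 2 / 2 * Real.exp ε *
      ((1 + ε) * Real.exp (-(1 - 2 * ε)))) * a ^ 2) := by fun_prop
  have h4 : ∀ᶠ ε : ℝ in 𝓝 0, (1 + 2 * ε) * (κ * Real.exp 2 / 2 * Real.exp ε *
      ((1 + ε) * Real.exp (-(1 - 2 * ε)))) * a ^ 2 < 1 := by
    refine (hc1.tendsto 0).eventually_lt (tendsto_const_nhds (x := (1 : ℝ))) ?_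
    have h5 : Real.exp 2 * Real.exp (-1) = Real.exp 1 := by
      rw [← Real.exp_add]; norm_num
    have h6 : (1 + 2 * (0 : ℝ)) * (κ * Real.exp 2 / 2 * Real.exp 0 *
      ((1 + 0) * Real.exp (-(1 - 2 * 0)))) * a ^ 2 = a ^ 2 * (κ * (Real.exp 2 * Real.exp (-1)) / 2) := by
      simp only [mul_zero, Real.exp_zero, sub_zero]
      ring
    rw [h6, h5]
    exact haC
  obtain ⟨δ', hδ'0, hδ'⟩ := Metric.eventually_nhds_iff.mp h4
  refine ⟨a, min (δ' / 2) (1 / 4), ha0, by rw [ha]; linarith, by positivity, min_le_right _ _,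
    (hδ' ?_).le⟩
  rw [Real.dist_eq, sub_zero, abs_of_pos (by positivity)]
  exact lt_of_le_of_lt (min_le_left _ _) (by linarith)

theorem many_frey' {K K' κ : ℝ} (hK : 0 < K) (hK' : 0 < K') (hκ : 0 < κ)
    (hlat : ∃ (n0 : ℕ) (B : ℝ), ∀ (ι : Type) [Fintype ι] (N : ℕ) (W : ι → ℤ),
      n0 ≤ Fintype.card ι → 0 < N → B * Fintype.card ι ≤ Real.log N →
      ∃ e : ι → ℤ, e ≠ 0 ∧ (N : ℤ) ∣ ∑ i, W i * e i ∧
        ∑ i, |(e i : ℝ)| ≤ κ * Fintype.card ι * Real.exp (Real.log N / Fintype.card ι))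
    (h : (K + K') ^ 2 * κ * Real.exp 1 < 32) :
    ∀ᶠ Y : ℝ in atTop, ∃ (T : Finset (ℕ × ℕ × ℕ)) (m q : ℕ), q.Prime ∧ m < q ∧
      Real.exp (K' * √Y / Real.log Y) ≤ T.card ∧
      ∀ t ∈ T, IsABCTriple t.1 t.2.1 t.2.2 ∧ 16 ∣ t.1 * t.2.1 * t.2.2 ∧ q ∣ t.1 ∧
        t.2.1.primeFactors ⊆ primesLE m ∧ t.2.2.primeFactors ⊆ primesLE m ∧
        Real.log t.2.2 ≤ Y ∧
        K * √Y / Real.log Y + 1 < (Real.log t.1 + Real.log t.2.1 + Real.log t.2.2) / 3 -
            Real.log (rad (t.1 * t.2.1 * t.2.2)) := by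
  have hT0 : 0 < K + K' := by positivity
  obtain ⟨a, ε, ha0, haT, hε, hε1, hopt⟩ := choose_a' hT0 hκ h
  set T : ℝ := K + K' with hT
  set g : ℝ := 2 * K / T with hg
  set h' : ℝ := 2 * K' / T with hh
  have hg0 : 0 < g := by positivity
  have hh0 : 0 < h' := by positivity
  have hgh : g + h' = 2 := by
    rw [hg, hh, ← add_div, ← mul_add, ← hT]; field_simp
  set q : ℝ := (T / 2 + 2 * a) / 2 with hq
  have hq1 : T / 2 < q := by rw [hq]; linarith
  have hq2 : q < 2 * a := by rw [hq]; linarith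
  set r : ℝ := 2 * q / T - 1 with hr
  have hr0 : 0 < r := by
    have : 1 < 2 * q / T := by rw [lt_div_iff₀ hT0]; linarith
    linarith
  have e1 := (mm_atTop ha0).eventually (cut_frey' hε hε1 hg0 hh0 hgh hκ hlat)
  have e2 := (mm_atTop ha0).eventually (height_bound hε hε1)
  have e3 := (count_limit ha0).eventually (lt_mem_nhds hq2)
  have e4 := (log_mm ha0).eventually (gt_mem_nhds (show (1 / 2 : ℝ) < 1 by norm_num))
  have e5 := rho_atTop (10 / (K * r))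
  have e6 := rho_atTop (1 / (K' * r))
  filter_upwards [e1, e2, e3, e4, e5, e6, eventually_ge_atTop (Real.exp 1)] with
    Y h1 h2 h3 h4 h5 h6 h7
  have hY0 : 0 < Y := lt_of_lt_of_le (Real.exp_pos 1) h7
  have hlY : 1 ≤ Real.log Y := by rw [Real.le_log_iff_exp_le hY0]; exact h7
  have hlY0 : 0 < Real.log Y := by linarith
  have hsY : 0 < √Y := Real.sqrt_pos.mpr hY0
  set ρ : ℝ := √Y / Real.log Y with hρ
  have hρ0 : 0 < ρ := by positivity
  set m := mm a Y with hm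
  rw [lt_div_iff₀ hρ0] at h3
  rw [div_lt_iff₀ hlY0, one_mul] at h4
  have hm2 : (m : ℝ) ^ 2 ≤ a ^ 2 * Y := by
    have h8 : (m : ℝ) ≤ a * √Y := Nat.floor_le (by positivity)
    calc (m : ℝ) ^ 2 ≤ (a * √Y) ^ 2 := by gcongr
      _ = a ^ 2 * Y := by rw [mul_pow, Real.sq_sqrt hY0.le]
  obtain ⟨S, p, hp, hmp, hS1, hS2⟩ := h1
  refine ⟨S, m, p, hp, hmp, ?_, ?_⟩
  · have h9 : K' * √Y / Real.log Y + Real.log 2 ≤ h' * Nat.primeCounting m := by
      have h10 : h' * (q * ρ) ≤ h' * Nat.primeCounting m := by gcongr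
      have h11 : h' * (q * ρ) = K' * ρ + K' * r * ρ := by
        rw [hh, hr]; field_simp; ring
      have h12 : 1 ≤ K' * r * ρ := by
        have h13 : K' * r * (1 / (K' * r) * Real.log Y) ≤ K' * r * ρ := by gcongr
        have h14 : K' * r * (1 / (K' * r) * Real.log Y) = Real.log Y := by field_simp
        linarith
      have h15 : K' * √Y / Real.log Y = K' * ρ := by rw [hρ]; ring
      rw [h15]
      linarith [Real.log_two_lt_d9]
    have h16 := Real.exp_le_exp.mpr h9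
    rw [Real.exp_add, Real.exp_log two_pos] at h16
    linarith
  · intro t ht
    obtain ⟨habc, hab, hq5, hb5, hc5, hc, hrad⟩ := hS2 t ht
    refine ⟨habc, hab, hq5, hb5, hc5, ?_, ?_⟩
    · refine hc.trans ?_
      calc (1 + 2 * ε) * (κ * Real.exp 2 / 2 * Real.exp ε *
          (Nat.primeCounting m * m * Real.log m *
            Real.exp (-(II m / Nat.primeCounting m))))
          ≤ (1 + 2 * ε) * (κ * Real.exp 2 / 2 * Real.exp ε *
          ((1 + ε) * Real.exp (-(1 - 2 * ε)) * (m : ℝ) ^ 2)) := by gcongr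
        _ ≤ (1 + 2 * ε) * (κ * Real.exp 2 / 2 * Real.exp ε *
          ((1 + ε) * Real.exp (-(1 - 2 * ε)) * (a ^ 2 * Y))) := by gcongr
        _ = ((1 + 2 * ε) * (κ * Real.exp 2 / 2 * Real.exp ε *
          ((1 + ε) * Real.exp (-(1 - 2 * ε)))) * a ^ 2) * Y := by ring
        _ ≤ 1 * Y := by gcongr
        _ = Y := one_mul Y
    · refine lt_of_lt_of_le ?_ hrad
      have h10 : g * (q * ρ) ≤ g * Nat.primeCounting m := by gcongr
      have h11 : g * (q * ρ) = K * ρ + K * r * ρ := by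
        rw [hg, hr]; field_simp; ring
      have h12 : 10 * Real.log Y ≤ K * r * ρ := by
        have h13 : K * r * (10 / (K * r) * Real.log Y) ≤ K * r * ρ := by gcongr
        have h14 : K * r * (10 / (K * r) * Real.log Y) = 10 * Real.log Y := by field_simp
        linarith
      have h15 : K * √Y / Real.log Y = K * ρ := by rw [hρ]; ring
      rw [h15]
      linarith

open Pool.Agent.TH871.L1 in
/-- `K + K' ≤ 6.84` -/
theorem many_frey {K K' : ℝ} (hK : 0 < K) (hK' : 0 ≤ K') (h : K + K' ≤ 171 / 25) :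
    ∀ᶠ Y : ℝ in atTop, ∃ (T : Finset (ℕ × ℕ × ℕ)) (m q : ℕ), q.Prime ∧ m < q ∧
      Real.exp (K' * √Y / Real.log Y) ≤ T.card ∧
      ∀ t ∈ T, IsABCTriple t.1 t.2.1 t.2.2 ∧ 16 ∣ t.1 * t.2.1 * t.2.2 ∧ q ∣ t.1 ∧
        t.2.1.primeFactors ⊆ primesLE m ∧ t.2.2.primeFactors ⊆ primesLE m ∧
        Real.log t.2.2 ≤ Y ∧
        K * √Y / Real.log Y + 1 < (Real.log t.1 + Real.log t.2.1 + Real.log t.2.2) / 3 -
            Real.log (rad (t.1 * t.2.1 * t.2.2)) := by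
  obtain ⟨st, hst⟩ := G5.data.exists_state
  have hb := G5.bound
  rw [← hst] at hb
  have hκ : 0 < st.κ := by
    rw [hst, G5.val_P]
    positivity
  have hT0 : 0 < K + K' := by positivity
  have hlt : (K + K') ^ 2 * st.κ * Real.exp 1 < 32 := by
    refine lt_of_le_of_lt ?_ hb
    have := Real.exp_pos 1
    gcongr
  obtain ⟨ε, hε0, hε⟩ : ∃ ε : ℝ, 0 < ε ∧ (K + (K' + ε)) ^ 2 * (st.κ + ε) * Real.exp 1 < 32 := by
    have hc : Continuous (fun ε : ℝ => (K + (K' + ε)) ^ 2 * (st.κ + ε) * Real.exp 1) := by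
      fun_prop
    have h1 : ∀ᶠ ε : ℝ in 𝓝 0, (K + (K' + ε)) ^ 2 * (st.κ + ε) * Real.exp 1 < 32 := by
      refine (hc.tendsto 0).eventually_lt (tendsto_const_nhds (x := (32 : ℝ))) ?_
      simpa using hlt
    obtain ⟨δ, hδ0, hδ⟩ := Metric.eventually_nhds_iff.mp h1
    refine ⟨δ / 2, by positivity, hδ ?_⟩
    rw [Real.dist_eq, sub_zero, abs_of_pos (by positivity)]
    linarith
  have h2 := many_frey' hK (by positivity : 0 < K' + ε) (by positivity) (lattice st hε0) hε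
  filter_upwards [h2, eventually_ge_atTop (Real.exp 1)] with Y ⟨T, m, q, h3, h4, h5, h6⟩ hY
  have hY0 : 0 < Y := lt_of_lt_of_le (Real.exp_pos 1) hY
  have hlY : 1 ≤ Real.log Y := by rw [Real.le_log_iff_exp_le hY0]; exact hY
  refine ⟨T, m, q, h3, h4, le_trans ?_ h5, h6⟩
  have : K' ≤ K' + ε := by linarith
  gcongr

open Classical in
theorem main (K K' : ℝ) (hK : 0 < K) (hK' : 0 ≤ K') (h : K / 6 + K' ≤ 171 / 25) :
    ∀ᶠ X : ℝ in atTop, ∃ T : Finset (WeierstrassCurve ℤ),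
      Real.exp (K' * √(Real.log X) / Real.log (Real.log X)) ≤ T.card ∧
      (∀ W ∈ T, 0 < W.Δ ∧ IsCoprime W.c₄ W.Δ ∧
        (∃ r₁ r₂ r₃ : ℚ, ∀ x : ℚ,
          4 * x ^ 3 + W.b₂ * x ^ 2 + 2 * W.b₄ * x + W.b₆ = 4 * (x - r₁) * (x - r₂) * (x - r₃)) ∧
        (cond W : ℝ) ≤ X ∧ (W.Δ : ℝ) ≤ X ^ 6 ∧
        (cond W : ℝ) ^ 6 * Real.exp (K * √(Real.log X) / Real.log (Real.log X)) < (W.Δ : ℝ)) ∧
      (∀ W ∈ T, ∀ W' ∈ T, W.c₄ ^ 3 * W'.Δ = W'.c₄ ^ 3 * W.Δ → W = W') := by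
  have hK6 : 0 < K / 6 := by positivity
  have e1 := many_frey hK6 hK' h
  have e2 : ∀ᶠ Y : ℝ in atTop, Real.exp 1 ≤ Y := eventually_ge_atTop _
  filter_upwards [Real.tendsto_log_atTop.eventually (e1.and e2), eventually_gt_atTop 0] with
    X hX hX0
  obtain ⟨⟨T, m, q, hq, hmq, hT1, hT2⟩, hY⟩ := hX
  have hXe : Real.exp (Real.log X) = X := Real.exp_log hX0
  have hex : ∀ t : {t // t ∈ T}, ∃ W : WeierstrassCurve ℤ, 0 < W.Δ ∧ IsCoprime W.c₄ W.Δ ∧
      (∃ r₁ r₂ r₃ : ℚ, ∀ x : ℚ,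
        4 * x ^ 3 + W.b₂ * x ^ 2 + 2 * W.b₄ * x + W.b₆ = 4 * (x - r₁) * (x - r₂) * (x - r₃)) ∧
      (cond W : ℝ) ≤ Real.exp (Real.log X) ∧
      (cond W : ℝ) ^ 6 * Real.exp (6 * (K / 6) * √(Real.log X) / Real.log (Real.log X)) <
        (W.Δ : ℝ) ∧
      (W.Δ : ℝ) ≤ Real.exp (Real.log X) ^ 6 ∧
      W.c₄ = (t.1.2.2 : ℤ) ^ 2 - t.1.1 * t.1.2.1 ∧
      256 * W.Δ = ((t.1.1 * t.1.2.1 * t.1.2.2 : ℕ) : ℤ) ^ 2 := by
    rintro ⟨t, ht⟩
    obtain ⟨h1, h2, h3, h4, h5, h6, h7⟩ := hT2 t ht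
    exact curve_of hK6 hY h1 h2 h6 h7
  choose F hF using hex
  have hinj : ∀ t t' : {t // t ∈ T}, (F t).c₄ ^ 3 * (F t').Δ = (F t').c₄ ^ 3 * (F t).Δ →
      t = t' := by
    intro t t' hj
    obtain ⟨p1, p2, -, -, -, -, p7, p8⟩ := hF t
    obtain ⟨r1, r2, -, -, -, -, r7, r8⟩ := hF t'
    obtain ⟨hc, hd⟩ := j_eq p2 r2 p1 r1 hj
    obtain ⟨h1, h2, h3, h4, h5, h6, h7⟩ := hT2 t.1 t.2
    obtain ⟨h1', h2', h3', h4', h5', h6', h7'⟩ := hT2 t'.1 t'.2
    rw [hd] at p8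
    rw [p8] at r8
    rw [p7, r7] at hc
    have hprod : t.1.1 * t.1.2.1 * t.1.2.2 = t'.1.1 * t'.1.2.1 * t'.1.2.2 := by
      have : (t.1.1 * t.1.2.1 * t.1.2.2) ^ 2 = (t'.1.1 * t'.1.2.1 * t'.1.2.2) ^ 2 := by
        exact_mod_cast r8
      exact (Nat.pow_left_injective (n := 2) (by norm_num)) this
    obtain ⟨a1, a2, a3⟩ := recover hq hmq h1 h1' h3 h4' hprod hc
    exact Subtype.ext (Prod.ext a1 (Prod.ext a2 a3))
  refine ⟨Finset.univ.image F, ?_, ?_, ?_⟩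
  · have hFinj : Function.Injective F := by
      intro t t' htt
      exact hinj t t' (by rw [htt])
    rw [Finset.card_image_of_injective _ hFinj, Finset.card_univ, Fintype.card_coe]
    exact hT1
  · intro W hW
    obtain ⟨t, _, rfl⟩ := Finset.mem_image.mp hW
    obtain ⟨p1, p2, p3, p4, p5, p6, -, -⟩ := hF t
    rw [hXe] at p4 p6
    have e6 : 6 * (K / 6) = K := by ring
    rw [e6] at p5
    exact ⟨p1, p2, p3, p4, p6, p5⟩
  · intro W hW W' hW' hj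
    obtain ⟨t, _, rfl⟩ := Finset.mem_image.mp hW
    obtain ⟨t', _, rfl⟩ := Finset.mem_image.mp hW'
    rw [hinj t t' hj]

end Pool.Agent.U168.SZ
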